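import Pool.Agent.H95.FH.Defs

open MvPolynomial

namespace H26.FH
open H95.FG H95.FH

/-- division by a coprime family -/
theorem dvd_of_fam {R : Type*} [CommRing R] [IsDomain R] [UniqueFactorizationMonoid R]
    {ι : Type*} (c : ι → R) (hc : ∀ φ : R, (∀ j, φ ∣ c j) → IsUnit φ) (a : R) :
    a ≠ 0 → ∀ b : R, (∀ j, a ∣ b * c j) → a ∣ b := by
  induction a using UniqueFactorizationMonoid.induction_on_prime with
  | h₁ => intro ha; exact absurd rfl ha
  | h₂ x hx => intro _ b _; exact hx.dvd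
  | h₃ a q ha0 hq ih =>
    intro _ b hb
    have hqb : q ∣ b := by
      by_contra hn
      apply hq.not_isUnit
      apply hc
      intro j
      have : q ∣ b * c j := dvd_trans (Dvd.intro _ rfl) (hb j)
      exact (hq.dvd_or_dvd this).resolve_left hn
    obtain ⟨b', rfl⟩ := hqb
    have := ih ha0 b' (fun j => by
      have h := hb j
      rw [mul_assoc] at h
      exact (mul_dvd_mul_iff_left hq.ne_zero).mp h)
    exact mul_dvd_mul_left q this

/-- the polynomial `f (M Y)` -/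
noncomputable def cmp (M : Matrix (Fin 3) (Fin 3) ℂ) (f : MvPolynomial (Fin 3) ℂ) :
    MvPolynomial (Fin 3) ℂ :=
  aeval (fun i => ∑ l, C (M i l) * (X l : MvPolynomial (Fin 3) ℂ)) f

theorem eval_cmp (M : Matrix (Fin 3) (Fin 3) ℂ) (f : MvPolynomial (Fin 3) ℂ) (Y : Fin 3 → ℂ) :
    eval Y (cmp M f) = eval (M.mulVec Y) f := by
  unfold cmp
  induction f using MvPolynomial.induction_on with
  | C a => simp
  | add p q hp hq => simp only [map_add, hp, hq]
  | mul_X p i hp =>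
    rw [map_mul, map_mul, hp, map_mul, aeval_X, eval_X]
    congr 1
    simp [Matrix.mulVec, dotProduct]

theorem cmp_hom (M : Matrix (Fin 3) (Fin 3) ℂ) (f : MvPolynomial (Fin 3) ℂ) (n : ℕ)
    (hf : f.IsHomogeneous n) : (cmp M f).IsHomogeneous n := by
  unfold cmp
  have h := hf.aeval (fun i => ∑ l, C (M i l) * (X l : MvPolynomial (Fin 3) ℂ)) (n := 1) (by
    intro i
    apply IsHomogeneous.sum
    intro l _
    have h1 := (isHomogeneous_C (Fin 3) (M i l)).mul (isHomogeneous_X ℂ l)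
    simpa using h1)
  simpa using h

theorem parLem {m : ℕ} (P : P3 m) (n : ℕ) (hP : Hom P n)
    (hgcd : ∀ φ : MvPolynomial (Fin 3) ℂ, (∀ j, φ ∣ P j) → IsUnit φ)
    (M : Matrix (Fin 3) (Fin 3) ℂ) :
    (∃ c : ℂ, c ≠ 0 ∧ ∀ Y, ev P (M.mulVec Y) = c • ev P Y) ∨
    ∃ V : MvPolynomial (Fin 3) ℂ, V ≠ 0 ∧ ∀ Y, ev P (M.mulVec Y) ≠ 0 →
      (∃ c : ℂ, ev P (M.mulVec Y) = c • ev P Y) → eval Y V = 0 := by
  by_cases hW : ∀ j k, cmp M (P j) * P k = cmp M (P k) * P j
  · obtain ⟨k0, hk0⟩ : ∃ k0, P k0 ≠ 0 := by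
      by_contra hno
      push Not at hno
      have := hgcd 0 (fun j => by rw [hno j])
      exact not_isUnit_zero this
    have hd : P k0 ∣ cmp M (P k0) := by
      apply dvd_of_fam P hgcd (P k0) hk0
      intro j
      exact ⟨cmp M (P j), by rw [hW k0 j]; ring⟩
    obtain ⟨H, hH⟩ := hd
    have hall : ∀ j, cmp M (P j) = P j * H := by
      intro j
      have h1 := hW j k0
      rw [hH] at h1
      have h2 : P k0 * (cmp M (P j) - P j * H) = 0 := by linear_combination h1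
      rcases mul_eq_zero.mp h2 with h | h
      · exact absurd h hk0
      · exact sub_eq_zero.mp h
    obtain ⟨c, hc⟩ : ∃ c : ℂ, H = C c := by
      by_cases hH0 : H = 0
      · exact ⟨0, by rw [hH0, map_zero]⟩
      · have h1 : (P k0 * H).totalDegree = (P k0).totalDegree + H.totalDegree :=
          totalDegree_mul_of_isDomain hk0 hH0
        have h2 : (P k0).totalDegree = n := (hP k0).totalDegree hk0
        have h3 : (cmp M (P k0)).totalDegree ≤ n := (cmp_hom M _ n (hP k0)).totalDegree_le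
        rw [hH, h1, h2] at h3
        have h4 : H.totalDegree = 0 := by omega
        exact ⟨_, totalDegree_eq_zero_iff_eq_C.mp h4⟩
    have hev : ∀ Y, ev P (M.mulVec Y) = c • ev P Y := by
      intro Y
      funext j
      have h1 := congrArg (eval Y) (hall j)
      rw [eval_cmp, map_mul, hc, eval_C] at h1
      simp only [ev, Pi.smul_apply, smul_eq_mul]
      rw [h1]; ring
    by_cases hc0 : c = 0
    · right
      refine ⟨1, one_ne_zero, fun Y hY _ => ?_⟩
      exact absurd (by rw [hev Y, hc0, zero_smul]) hY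
    · left
      exact ⟨c, hc0, hev⟩
  · right
    push Not at hW
    obtain ⟨j, k, hjk⟩ := hW
    refine ⟨cmp M (P j) * P k - cmp M (P k) * P j, sub_ne_zero.mpr hjk, ?_⟩
    rintro Y _ ⟨c, hc⟩
    have h1 := congrFun hc j
    have h2 := congrFun hc k
    simp only [ev, Pi.smul_apply, smul_eq_mul] at h1 h2
    rw [map_sub, map_mul, map_mul, eval_cmp, eval_cmp, h1, h2]
    ring

theorem dt_single (l : Fin 3) (c : Fin 3 → ℂ) : dt (Pi.single l 1) c = c l := by
  unfold dt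
  simp [Pi.single_apply]

theorem dt_add (u v c : Fin 3 → ℂ) : dt (u + v) c = dt u c + dt v c := by
  unfold dt
  simp [add_mul, Finset.sum_add_distrib]

theorem dt_smul (s : ℂ) (u c : Fin 3 → ℂ) : dt (s • u) c = s * dt u c := by
  unfold dt
  simp [Finset.mul_sum, mul_assoc]

theorem dt_add' (u v c : Fin 3 → ℂ) : dt c (u + v) = dt c u + dt c v := by
  unfold dt
  simp [mul_add, Finset.sum_add_distrib]

theorem dt_smul' (s : ℂ) (u c : Fin 3 → ℂ) : dt c (s • u) = s * dt c u := by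
  unfold dt
  simp [Finset.mul_sum, mul_left_comm]

theorem par_of_ker (a c : Fin 3 → ℂ) (hc : c ≠ 0) (h : ∀ v, dt v c = 0 → dt v a = 0) :
    ∃ s : ℂ, a = s • c := by
  obtain ⟨k, hk⟩ := Function.ne_iff.mp hc
  simp only [Pi.zero_apply] at hk
  refine ⟨a k / c k, ?_⟩
  funext l
  have h1 := h (c k • Pi.single l 1 + (- c l) • Pi.single k 1) (by
    rw [dt_add, dt_smul, dt_smul, dt_single, dt_single]; ring)
  rw [dt_add, dt_smul, dt_smul, dt_single, dt_single] at h1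
  simp only [Pi.smul_apply, smul_eq_mul]
  field_simp
  linear_combination h1

theorem prodzero (a b : Fin 3 → ℂ) (h : ∀ v, dt v a * dt v b = 0) : a = 0 ∨ b = 0 := by
  by_contra hno
  push Not at hno
  obtain ⟨ha, hb⟩ := hno
  obtain ⟨k, hk⟩ := Function.ne_iff.mp ha
  obtain ⟨l, hl⟩ := Function.ne_iff.mp hb
  simp only [Pi.zero_apply] at hk hl
  have h1 := h (Pi.single k 1)
  have h2 := h (Pi.single l 1)
  have h3 := h (Pi.single k 1 + Pi.single l 1)
  rw [dt_add, dt_add] at h3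
  rw [dt_single, dt_single] at h1 h2
  rw [dt_single, dt_single, dt_single, dt_single] at h3
  have e1 : b k = 0 := (mul_eq_zero.mp h1).resolve_left hk
  have e2 : a l = 0 := (mul_eq_zero.mp h2).resolve_right hl
  rw [e1, e2] at h3
  simp only [add_zero, zero_add] at h3
  exact mul_ne_zero hk hl h3

theorem fac_aux (a b c d : Fin 3 → ℂ) (h : ∀ v, dt v a * dt v b = dt v c * dt v d)
    (hc : c ≠ 0) (hd : d ≠ 0) (hk : ∀ v, dt v c = 0 → dt v a = 0) :
    ∃ s t : ℂ, s ≠ 0 ∧ t ≠ 0 ∧ a = s • c ∧ b = t • d := by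
  obtain ⟨s, hs⟩ := par_of_ker a c hc hk
  have h1 : ∀ v, dt v c * dt v (s • b + (-1 : ℂ) • d) = 0 := by
    intro v
    have := h v
    rw [hs, dt_smul'] at this
    rw [dt_add', dt_smul', dt_smul']
    linear_combination this
  have h2 : s • b = d := by
    rcases prodzero _ _ h1 with h | h
    · exact absurd h hc
    · rw [neg_one_smul] at h
      exact add_neg_eq_zero.mp h
  have hs0 : s ≠ 0 := by
    rintro rfl
    rw [zero_smul] at h2
    exact hd h2.symm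
  exact ⟨s, s⁻¹, hs0, inv_ne_zero hs0, hs, by rw [← h2, smul_smul, inv_mul_cancel₀ hs0, one_smul]⟩

theorem fac (a b c d : Fin 3 → ℂ) (h : ∀ v, dt v a * dt v b = dt v c * dt v d)
    (hc : c ≠ 0) (hd : d ≠ 0) :
    (∃ s t : ℂ, s ≠ 0 ∧ t ≠ 0 ∧ a = s • c ∧ b = t • d) ∨
    (∃ s t : ℂ, s ≠ 0 ∧ t ≠ 0 ∧ b = s • c ∧ a = t • d) := by
  by_cases h1 : ∀ v, dt v c = 0 → dt v a = 0
  · exact Or.inl (fac_aux a b c d h hc hd h1)
  · right
    push Not at h1
    obtain ⟨u, hu1, hu2⟩ := h1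
    refine fac_aux b a c d (fun v => by rw [mul_comm]; exact h v) hc hd ?_
    intro v hv
    by_contra hvb
    have e1 := h u
    have e2 := h v
    have e3 := h (u + v)
    rw [hu1, zero_mul] at e1
    rw [hv, zero_mul] at e2
    rw [dt_add, dt_add, dt_add u v c, hu1, hv] at e3
    have e1' := (mul_eq_zero.mp e1).resolve_left hu2
    have e2' := (mul_eq_zero.mp e2).resolve_right hvb
    rw [e1', e2'] at e3
    simp only [add_zero, zero_add, zero_mul] at e3
    exact mul_ne_zero hu2 hvb e3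

theorem li3 (z Y Y2 Y0 : Fin 3 → ℂ) (s t : ℂ) (hs : s ≠ 0) (ht : t ≠ 0)
    (hLI : LinearIndependent ℂ ![Y, Y2]) (h1 : dt z Y = 0) (h2 : dt z Y2 = 0)
    (h0 : dt z Y0 ≠ 0) : LinearIndependent ℂ ![Y, s • Y2, t • Y0] := by
  rw [Fintype.linearIndependent_iff]
  intro g hg
  rw [Fin.sum_univ_three] at hg
  simp only [Matrix.cons_val_zero, Matrix.cons_val_one, Matrix.cons_val] at hg
  have e := congrArg (dt z) hg
  rw [dt_add', dt_add', dt_smul', dt_smul', dt_smul', dt_smul', dt_smul', h1, h2] at e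
  have ez : dt z 0 = 0 := by unfold dt; simp
  rw [ez] at e
  have g2 : g 2 = 0 := by
    have : g 2 * (t * dt z Y0) = 0 := by linear_combination e
    exact (mul_eq_zero.mp this).resolve_right (mul_ne_zero ht h0)
  rw [g2, zero_smul, add_zero, smul_smul] at hg
  have hp := LinearIndependent.pair_iff.mp hLI _ _ hg
  have g1 : g 1 = 0 := (mul_eq_zero.mp hp.2).resolve_right hs
  intro i
  fin_cases i
  · exact hp.1
  · exact g1
  · exact g2

theorem li_swap (a b c : Fin 3 → ℂ) (h : LinearIndependent ℂ ![a, b, c]) :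
    LinearIndependent ℂ ![a, c, b] := by
  have := h.comp (![0, 2, 1] : Fin 3 → Fin 3) (by decide)
  convert this using 1
  funext i
  fin_cases i <;> rfl

theorem bl_dt (M : Matrix (Fin 3) (Fin 3) ℂ) (z Y : Fin 3 → ℂ) :
    bl M z Y = dt z (M.mulVec Y) := by
  unfold bl dt Matrix.mulVec dotProduct
  simp only [Finset.mul_sum, mul_assoc]

/-- a nonzero polynomial has a non-root in every ball -/
theorem nonroot (V : MvPolynomial (Fin 3) ℂ) (hV : V ≠ 0) (Y1 : Fin 3 → ℂ) (δ : ℝ) (hδ : 0 < δ) :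
    ∃ Y, ‖Y - Y1‖ < δ ∧ eval Y V ≠ 0 := by
  by_contra hno
  push Not at hno
  apply hV
  apply MvPolynomial.funext_set (fun i => Metric.ball (Y1 i) δ)
  · intro i
    exact (infinite_of_mem_nhds (Y1 i) (Metric.ball_mem_nhds _ hδ))
  · intro x hx
    rw [map_zero]
    apply hno
    rw [pi_norm_lt_iff hδ]
    intro i
    have := hx i (Set.mem_univ i)
    rw [Metric.mem_ball, dist_eq_norm] at this
    exact this

theorem t_MAPP (hRO : S_RO) (hPART : S_PART) (hGRO : S_GRO) (hBAS : S_BAS) (hSWAP : S_SWAP) :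
    S_MAPP := by
  rintro m p A hc ⟨z0, hz0⟩ ⟨M1, M2, hA, hr1, hr2⟩
  obtain ⟨-, hhp, hhcp, -, -, -, -, hroot⟩ := hBAS m 2 p A hc
  obtain ⟨hsw, -⟩ := hSWAP m 2 p A hc
  have hz0ne : z0 ≠ 0 := by
    rintro rfl
    apply hz0.1.1
    have := hhp 0 0
    rw [smul_zero] at this
    rw [this]
    norm_num
  obtain ⟨Y1, hY1⟩ := hroot z0 hz0ne
  obtain ⟨ε, hε, hG⟩ := hGRO m 2 p A hc z0 hz0
  obtain ⟨δ, hδ, hR⟩ := hRO m p A hc z0 Y1 ε hε hz0 hY1
  have key : ∀ Y, ‖Y - Y1‖ < δ →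
      ((ev (cp p) (M1.mulVec Y) ≠ 0 ∧ ∃ c : ℂ, ev (cp p) (M1.mulVec Y) = c • ev (cp p) Y) ∨
       (ev (cp p) (M2.mulVec Y) ≠ 0 ∧ ∃ c : ℂ, ev (cp p) (M2.mulVec Y) = c • ev (cp p) Y)) ∧
      LinearIndependent ℂ ![Y, M1.mulVec Y, M2.mulVec Y] := by
    intro Y hY
    obtain ⟨z, hz, hzY⟩ := hR Y hY
    have hgr := hG z hz
    obtain ⟨Y2, Y0, hY2, hLI, hzY0, ⟨c, hc0, hev⟩, hfac, -, -⟩ := hPART m p A hc z Y hgr hzY
    have hY0 : Y0 ≠ 0 := by
      rintro rfl
      apply hzY0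
      unfold dt; simp
    have hprod : ∀ v, dt v (M1.mulVec Y) * dt v (M2.mulVec Y) = dt v Y2 * dt v Y0 := by
      intro v
      rw [← hfac v, hA, bl_dt, bl_dt]
    have hnz : ev (cp p) Y2 ≠ 0 := hgr.1.2.1 Y2 hY2.1 hY2.2.1
    have hgen : ∀ s : ℂ, s ≠ 0 → ev (cp p) (s • Y2) ≠ 0 ∧
        ∃ c : ℂ, ev (cp p) (s • Y2) = c • ev (cp p) Y := by
      intro s hs
      rw [hhcp s Y2]
      exact ⟨smul_ne_zero (pow_ne_zero _ hs) hnz, _, by rw [hev, smul_smul]⟩
    rcases fac _ _ _ _ hprod hY2.1 hY0 with ⟨s, t, hs, ht, e1, e2⟩ | ⟨s, t, hs, ht, e1, e2⟩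
    · rw [e1, e2]
      exact ⟨Or.inl (hgen s hs), li3 z Y Y2 Y0 s t hs ht hLI hzY.2.1 hY2.2.1 hzY0⟩
    · rw [e1, e2]
      exact ⟨Or.inr (hgen s hs),
        li_swap _ _ _ (li3 z Y Y2 Y0 s t hs ht hLI hzY.2.1 hY2.2.1 hzY0)⟩
  have hk1 := (key Y1 (by rw [sub_self, norm_zero]; exact hδ)).2
  rcases parLem (cp p) _ hsw.hom hsw.gcd M1 with ⟨c, hc0, h⟩ | ⟨V1, hV1, h1⟩
  · exact ⟨M1, M2, c, hc0, hA, hr1, hr2, h, Y1, hk1⟩
  rcases parLem (cp p) _ hsw.hom hsw.gcd M2 with ⟨c, hc0, h⟩ | ⟨V2, hV2, h2⟩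
  · exact ⟨M2, M1, c, hc0, fun z Y => by rw [hA, mul_comm], hr2, hr1, h, Y1,
      li_swap _ _ _ hk1⟩
  exfalso
  obtain ⟨Y, hY, hne⟩ := nonroot (V1 * V2) (mul_ne_zero hV1 hV2) Y1 δ hδ
  apply hne
  rw [map_mul]
  rcases (key Y hY).1 with ⟨ha, hb⟩ | ⟨ha, hb⟩
  · rw [h1 Y ha hb, zero_mul]
  · rw [h2 Y ha hb, mul_zero]

end H26.FH
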